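import Pool.Agent.TH930.LT.Param

set_option autoImplicit false

/-! The number of starting points with a large excursion, with an exponent beyond `1 - H(log_3 2)`. -/

namespace Pool.Agent.Results.MP_0a5adf_nt.ExcursionsBeyondEntropy

open Pool.Agent.TH930.LT

/-- the accelerated `3x+1` map -/
def T (n : ℕ) : ℕ := if n % 2 = 0 then n / 2 else (3 * n + 1) / 2

/-- the binary entropy function, in bits -/
noncomputable def H (p : ℝ) : ℝ := Real.binEntropy p / Real.log 2

/-- within `B log n` steps the trajectory of `n` reaches a value `≤ y`, and it stays `≤ V` until then -/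
def DescendsBelow (B y V : ℝ) (n : ℕ) : Prop :=
  ∃ m : ℕ, (m : ℝ) ≤ B * Real.log n ∧ ((T^[m] n : ℕ) : ℝ) ≤ y ∧ ∀ j ≤ m, ((T^[j] n : ℕ) : ℝ) ≤ V

/-- the number of positive integers `n ≤ x` with the property `P` -/
noncomputable def count (P : ℕ → Prop) (x : ℝ) : ℝ := ({n : ℕ | 1 ≤ n ∧ (n : ℝ) ≤ x ∧ P n}.ncard : ℝ)

lemma T_eq : T = Pool.Agent.Helper894.Collatz.T := rfl

lemma exc_iff {B y V : ℝ} {n : ℕ} : ¬ DescendsBelow B y V n ↔ excBad B y V n := by
  unfold DescendsBelow excBad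
  rw [T_eq, not_iff_not]
  apply exists_congr
  intro m
  tauto

/-- There are `c > 1 - H(log_3 2)` (`= 0.0500...`), `B` and `C` such that for all `x ≥ 2`, `y ≥ 1` and
`V ≥ x` all but `C (log x)^4 (x^2 / V + x / y^c)` of the `n ≤ x` reach a value `≤ y` within `B log n`
steps and stay `≤ V` until then. -/
theorem result : ∃ c B C : ℝ, 1 - H (Real.log 2 / Real.log 3) < c ∧ 0 < B ∧ 0 < C ∧
    ∀ x y V : ℝ, 2 ≤ x → 1 ≤ y → x ≤ V →
      count (fun n => ¬ DescendsBelow B y V n) x ≤ C * Real.log x ^ 4 * (x ^ 2 / V + x / y ^ c) := by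
  have hl2 : 0 < Real.log 2 := Real.log_pos (by norm_num)
  have hl3 : 0 < Real.log 3 := Real.log_pos (by norm_num)
  have e43 : Real.log (4 / 3) = 2 * Real.log 2 - Real.log 3 := by
    rw [Real.log_div (by norm_num) (by norm_num), show (4 : ℝ) = 2 ^ 2 by norm_num, Real.log_pow]
    push_cast; ring
  have h43 : 0 < Real.log (4 / 3) := Real.log_pos (by norm_num)
  have hk := kappa_lt
  have h0 : 1 / 2 < Real.log 2 / Real.log 3 := by
    rw [lt_div_iff₀ hl3]
    linarith
  obtain ⟨τ, p, c, hτ0, hτ1, hp1, hp2, hc1, hc2, hc3⟩ := exists_param h0 hk.le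
  have ha : 0 < Real.log 2 - p * Real.log 3 := by
    rw [lt_div_iff₀ hl3] at hp2
    linarith
  have hr0 := rate_pos h0
  obtain ⟨C, hC, h⟩ := exc_law hτ0 hτ1 hp1 (by linarith) (B := 2 / (Real.log 2 - p * Real.log 3))
    (by positivity) (by rw [div_mul_cancel₀ _ ha.ne']; norm_num) (c := c) (by linarith) hc2 hc3
  refine ⟨c, 2 / (Real.log 2 - p * Real.log 3), C, hc1, by positivity, hC, fun x y V hx hy hV => ?_⟩
  rw [add_comm (x ^ 2 / V)]
  refine le_trans (le_of_eq ?_) (h x y V hx hy hV)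
  unfold count
  congr 2
  ext n
  simp only [Set.mem_ofPred_eq]
  constructor
  · rintro ⟨h1, h2, h3⟩
    exact ⟨h1, h2, exc_iff.1 h3⟩
  · rintro ⟨h1, h2, h3⟩
    exact ⟨h1, h2, exc_iff.2 h3⟩

end Pool.Agent.Results.MP_0a5adf_nt.ExcursionsBeyondEntropy
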