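import Pool.Agent.TH465.EX.C
import Pool.Agent.W36.GU.GU13

set_option autoImplicit false

/-!
The joint law of the maximum excursions along linear forms.

At the values of pairwise independent affine linear forms in several integer variables (for example at
the terms of an arithmetic progression, jointly in the first term and the difference) the maximum
excursions, in proportion to the values, are governed by the first parities only, and finiteness and
membership in given invariant sets are independent of them and of each other.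
-/

namespace Pool.Agent.Results.MP_0a5adf_nt.LinearForms

open Filter Topology

/-- the accelerated `3x+1` map -/
def T (n : ℤ) : ℤ := if n % 2 = 0 then n / 2 else (3 * n + 1) / 2

/-- The trajectory of `n` is bounded above: `t(n) < ∞`. -/
def FiniteExcursion (n : ℤ) : Prop := ∃ B : ℤ, ∀ k, T^[k] n ≤ B

/-- `t(n) ≤ c` -/
def ExcursionLE (n : ℤ) (c : ℝ) : Prop := ∀ k, (T^[k] n : ℝ) ≤ c

/-- `n` is in `S` if and only if `T n` is. -/
def Invariant (S : Set ℤ) : Prop := ∀ n : ℤ, n ∈ S ↔ T n ∈ S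

/-- Among the positive integers the set `S` has the natural density `δ`. -/
def HasDensity (S : Set ℤ) (δ : ℝ) : Prop :=
  Tendsto (fun N : ℕ => ({n : ℤ | 0 < n ∧ n ≤ N ∧ n ∈ S}.ncard : ℝ) / N) atTop (𝓝 δ)

/-- the number of the odd terms among `n, T n, ..., T^(k-1) n` -/
def oddTerms (k : ℕ) (n : ℤ) : ℕ := ((Finset.range k).filter (fun j => T^[j] n % 2 = 1)).card

/-- `3 ^ (number of the odd terms among the first k) < lam * 2 ^ k` for `1 ≤ k ≤ K`; this depends on
`n` modulo `2 ^ K` only. -/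
def Safe (K : ℕ) (lam : ℝ) (n : ℤ) : Prop := ∀ k, 1 ≤ k → k ≤ K → (3 : ℝ) ^ oddTerms k n < lam * 2 ^ k

/-- the value of the form `Λ i` with the constant term `c i` at `v` -/
def value {D r : ℕ} (Λ : Fin r → Fin D → ℤ) (c : Fin r → ℤ) (i : Fin r) (v : Fin D → ℤ) : ℤ :=
  ∑ j, Λ i j * v j + c i

/-- The integral points `v` of the box `∏ (P j, P' j]` such that, for every `i`, the value of the
`i`-th form is in `(M i, N i]`. -/
def Region {D r : ℕ} (Λ : Fin r → Fin D → ℤ) (c : Fin r → ℤ) (M N : Fin r → ℕ) (P P' : Fin D → ℤ) :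
    Set (Fin D → ℤ) :=
  {v | (∀ j, P j < v j ∧ v j ≤ P' j) ∧ ∀ i, (M i : ℤ) < value Λ c i v ∧ value Λ c i v ≤ N i}

open Pool.Agent.TH465.EX
open Pool.Agent.H499R2.ND (Tn Td Bdd Bdd_inv AK Inv)

theorem T_eq : T = Td 1 := rfl

theorem T_iter (k m : ℕ) : T^[k] (m : ℤ) = ((Tn^[k] m : ℕ) : ℤ) := by
  rw [T_eq]
  induction k generalizing m with
  | zero => rfl
  | succ k ih =>
    rw [Function.iterate_succ_apply, Function.iterate_succ_apply, ← ih]
    congr 1
    unfold Td Tn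
    rcases Nat.mod_two_eq_zero_or_one m with h | h
    · rw [if_pos (by omega), if_pos h]; omega
    · rw [if_neg (by omega), if_neg (by omega)]; omega

theorem fin_iff {n : ℤ} (hn : 0 < n) : FiniteExcursion n ↔ Bdd n.toNat := by
  obtain ⟨m, rfl⟩ : ∃ m : ℕ, n = m := ⟨n.toNat, by omega⟩
  rw [Int.toNat_natCast]
  unfold FiniteExcursion Bdd
  constructor
  · rintro ⟨B, hB⟩
    refine ⟨B.toNat, fun k => ?_⟩
    have := hB k
    rw [T_iter] at this
    omega
  · rintro ⟨B, hB⟩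
    refine ⟨B, fun k => ?_⟩
    rw [T_iter]
    exact_mod_cast hB k

theorem exc_iff {n : ℤ} (hn : 0 < n) (lam : ℝ) : ExcursionLE n (lam * n) ↔ Ex lam n := by
  obtain ⟨m, rfl⟩ : ∃ m : ℕ, n = m := ⟨n.toNat, by omega⟩
  unfold ExcursionLE Ex
  rw [Int.toNat_natCast]
  simp only [T_iter, Int.cast_natCast]
  exact ⟨fun h => ⟨hn, h⟩, fun h => h.2⟩

theorem odd_eq (k m : ℕ) : oddTerms k (m : ℤ) = Pool.Agent.Helper894.Collatz.od k m := by
  unfold oddTerms
  induction k with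
  | zero => simp [Pool.Agent.Helper894.Collatz.od]
  | succ k ih =>
    rw [Finset.range_add_one, Finset.filter_insert, Pool.Agent.Helper894.Collatz.od_succ, ← ih,
      Pool.Agent.H499R2.ND.Tn_eq]
    have h1 : T^[k] (m : ℤ) % 2 = ((Tn^[k] m % 2 : ℕ) : ℤ) := by
      rw [T_iter]; push_cast; rfl
    rcases Nat.mod_two_eq_zero_or_one (Tn^[k] m) with h | h
    · rw [if_neg (by rw [h1, h]; norm_num), h, add_zero]
    · rw [if_pos (by rw [h1, h]; norm_num), h, Finset.card_insert_of_notMem (by simp)]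

theorem safe_iff {n : ℤ} (hn : 0 < n) (K : ℕ) (lam : ℝ) : Safe K lam n ↔ AZ K lam n := by
  rw [AZ_nat hn]
  obtain ⟨m, rfl⟩ : ∃ m : ℕ, n = m := ⟨n.toNat, by omega⟩
  rw [Int.toNat_natCast]
  unfold Safe AK
  simp only [odd_eq]

theorem pos_iff (x : ℤ) : 0 < x ↔ 0 < Td 1 x := by
  unfold Td
  split_ifs with h <;> omega

theorem toNat_T {x : ℤ} (hx : 0 < x) : (Td 1 x).toNat = Tn x.toNat := by
  obtain ⟨m, rfl⟩ : ∃ m : ℕ, x = m := ⟨x.toNat, by omega⟩
  rw [Int.toNat_natCast]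
  unfold Td Tn
  rcases Nat.mod_two_eq_zero_or_one m with h | h
  · rw [if_pos (by omega), if_pos h]; omega
  · rw [if_neg (by omega), if_neg (by omega)]; omega

/-- the positive elements of `S` of finite excursion -/
def sub (S : Set ℤ) : Set ℤ := {n | 0 < n ∧ n ∈ S ∧ Bdd n.toNat}

theorem sub_inv {S : Set ℤ} (hS : Invariant S) : Inv 1 (sub S) := by
  intro x
  unfold sub
  simp only [Set.mem_ofPred_eq]
  constructor
  · rintro ⟨h1, h2, h3⟩
    refine ⟨(pos_iff x).1 h1, (hS x).1 h2, ?_⟩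
    rw [toNat_T h1]; exact (Bdd_inv _).1 h3
  · rintro ⟨h1, h2, h3⟩
    have h1' := (pos_iff x).2 h1
    refine ⟨h1', (hS x).2 h2, ?_⟩
    rw [toNat_T h1'] at h3; exact (Bdd_inv _).2 h3

theorem sub_density {S : Set ℤ} {δ : ℝ} (h : Pool.Agent.H499R2.ND.HD 1 (sub S) δ) :
    HasDensity {n | n ∈ S ∧ FiniteExcursion n} δ := by
  have h1 := Pool.Agent.H499R2.ND.HD_ncard (Or.inl rfl) h
  unfold HasDensity
  refine h1.congr fun N => ?_
  congr 3
  ext n
  simp only [one_mul, Set.mem_ofPred_eq, sub]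
  constructor
  · rintro ⟨h1, h2, _, h3, h4⟩
    exact ⟨h1, h2, h3, (fin_iff h1).2 h4⟩
  · rintro ⟨h1, h2, h3, h4⟩
    exact ⟨h1, h2, h1, h3, (fin_iff h1).1 h4⟩

theorem region_eq {D r : ℕ} (Λ : Fin r → Fin D → ℤ) (c : Fin r → ℤ) (M N : Fin r → ℕ) (P P' : Fin D → ℤ)
    (Q Q' : (Fin D → ℤ) → Prop) [DecidablePred Q'] (h : ∀ v ∈ Region Λ c M N P P', Q v ↔ Q' v) :
    {v | v ∈ Region Λ c M N P P' ∧ Q v}.ncard = ((rg Λ c M N P P').filter Q').card := by
  rw [← Set.ncard_coe_finset]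
  congr 1
  ext v
  rw [Finset.mem_coe, Finset.mem_filter]
  have h1 : v ∈ Region Λ c M N P P' ↔ v ∈ rg Λ c M N P P' := by
    rw [mem_rg]; rfl
  simp only [Set.mem_ofPred_eq]
  constructor
  · rintro ⟨h2, h3⟩
    exact ⟨h1.1 h2, (h v h2).1 h3⟩
  · rintro ⟨h2, h3⟩
    exact ⟨h1.2 h2, (h v (h1.2 h2)).2 h3⟩

/-- THE JOINT LAW OF THE MAXIMUM EXCURSIONS. Let `β > 0` be the natural density of the positive
integers of finite excursion. For pairwise independent linear forms in `D + 1` variables, `lam i ≥ 1`,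
`ε > 0` and every large `K`, the following holds for all large `X`, uniformly in the invariant sets
`S i`, the constant terms, the intervals `(M i, N i]`, `N i ≤ X`, and the boxes of side at most `X`; here
`δ i` is the density of the elements of `S i` of finite excursion (`δ i = β` if `S i` contains all
integers). (1) The number of the points of the region at which every value `n i` of a form is in `S i`
and `t(n i) ≤ lam i * n i` is the product of the `δ i` times the number of the points at which the first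
`K` parities of the `n i` are safe, up to `ε X ^ (D + 1)`. (2) If every form has an odd coefficient,
there are at least `(∏ δ i) (1 - ∑ 1 / lam i)` times the number of all points of the region such
points, up to `ε X ^ (D + 1)`. -/
theorem result : ∃ β : ℝ, 0 < β ∧ β ≤ 1 ∧ (β = 1 ↔ ∀ n : ℤ, 0 < n → FiniteExcursion n) ∧
    HasDensity {n | FiniteExcursion n} β ∧
    ∀ (D r : ℕ) (Λ : Fin r → Fin (D + 1) → ℤ), (∀ i, Λ i ≠ 0) →
      (∀ i j, i ≠ j → ∀ a b : ℤ, a • Λ i = b • Λ j → a = 0 ∧ b = 0) →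
      ∀ lam : Fin r → ℝ, (∀ i, 1 ≤ lam i) → ∀ ε : ℝ, 0 < ε → ∃ K₀ : ℕ, ∀ K : ℕ, K₀ ≤ K →
      ∃ X₀ : ℕ, ∀ S : Fin r → Set ℤ, (∀ i, Invariant (S i)) →
      ∃ δ : Fin r → ℝ, (∀ i, HasDensity {n | n ∈ S i ∧ FiniteExcursion n} (δ i)) ∧
      ∀ X : ℕ, X₀ ≤ X → ∀ c : Fin r → ℤ, ∀ M N : Fin r → ℕ, (∀ i, M i ≤ N i) → (∀ i, N i ≤ X) →
      ∀ P P' : Fin (D + 1) → ℤ, (∀ j, P' j - P j ≤ X) →
        |({v | v ∈ Region Λ c M N P P' ∧ ∀ i, value Λ c i v ∈ S i ∧
            ExcursionLE (value Λ c i v) (lam i * value Λ c i v)}.ncard : ℝ) -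
          (∏ i, δ i) * ({v | v ∈ Region Λ c M N P P' ∧ ∀ i, Safe K (lam i) (value Λ c i v)}.ncard : ℝ)| ≤
            ε * (X : ℝ) ^ (D + 1) ∧
        ((∀ i, ∃ j, Odd (Λ i j)) →
          (∏ i, δ i) * (1 - ∑ i, 1 / lam i) * ((Region Λ c M N P P').ncard : ℝ) - ε * (X : ℝ) ^ (D + 1) ≤
          ({v | v ∈ Region Λ c M N P P' ∧ ∀ i, value Λ c i v ∈ S i ∧
            ExcursionLE (value Λ c i v) (lam i * value Λ c i v)}.ncard : ℝ)) := by
  classical
  obtain ⟨β, h0, h1, h2, h3⟩ := Pool.Agent.H499R2.ND.Bdd_density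
  have hsub : Pool.Agent.H499R2.ND.Dn Bdd β := h3
  refine ⟨β, h0, h1, ?_, ?_, ?_⟩
  · rw [h2]
    constructor
    · intro h n hn
      exact (fin_iff hn).2 (h n.toNat (by omega))
    · intro h n hn
      have := (fin_iff (n := (n : ℤ)) (by omega)).1 (h n (by omega))
      rwa [Int.toNat_natCast] at this
  · unfold HasDensity
    unfold Pool.Agent.H499R2.ND.Dn at h3
    refine h3.congr fun N => ?_
    unfold Pool.Agent.H499R2.ND.cnt
    have e : {n : ℤ | 0 < n ∧ n ≤ N ∧ n ∈ {n | FiniteExcursion n}} =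
        (fun m : ℕ => (m : ℤ)) '' {n : ℕ | 1 ≤ n ∧ n ≤ N ∧ Bdd n} := by
      ext n
      simp only [Set.mem_ofPred_eq, Set.mem_image]
      constructor
      · rintro ⟨g1, g2, g3⟩
        exact ⟨n.toNat, ⟨by omega, by omega, (fin_iff g1).1 g3⟩, by omega⟩
      · rintro ⟨m, ⟨g1, g2, g3⟩, rfl⟩
        refine ⟨by omega, by omega, (fin_iff (by omega)).2 ?_⟩
        rwa [Int.toNat_natCast]
    rw [e, Set.ncard_image_of_injective _ Nat.cast_injective]
  · intro D r Λ hΛ0 hΛ lam hl ε hε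
    have hsm : ∀ s : ℤ, (s = 1 ∨ s = -1) → Pool.Agent.W36.GK.Sm (r + 1) (Pool.Agent.W36.GU.Bal s) :=
      fun s hs => Pool.Agent.W36.GK.GN_all (Pool.Agent.W36.GU.Bal_hyp hs) r
    obtain ⟨K₀, hK⟩ := main hΛ0 hΛ hsm hsub hl (show 0 < ε / 2 by positivity)
    refine ⟨K₀, fun K hKK => ?_⟩
    obtain ⟨X₀, hX⟩ := hK K hKK
    -- the second part
    have h2' : ∃ X₁ : ℕ, (∀ i, ∃ j, Odd (Λ i j)) → ∀ X : ℕ, X₁ ≤ X →
      ∀ c : Fin r → ℤ, ∀ M N : Fin r → ℕ, ∀ P P' : Fin (D + 1) → ℤ, (∀ j, P' j - P j ≤ X) →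
      (1 - ∑ i, 1 / lam i) * (rg Λ c M N P P').card - ε / 2 * (X : ℝ) ^ (D + 1) ≤
        ((rg Λ c M N P P').filter (fun v => Good Λ c K lam v)).card := by
      by_cases hodd : ∀ i, ∃ j, Odd (Λ i j)
      · obtain ⟨X₁, h⟩ := safe_ge hΛ0 hodd K hl (show 0 < ε / 2 by positivity)
        exact ⟨X₁, fun _ => h⟩
      · exact ⟨0, fun h => absurd h hodd⟩
    obtain ⟨X₁, hX₁⟩ := h2'
    refine ⟨X₀ + X₁, fun S hS => ?_⟩
    have hdens : ∀ i, ∃ l : ℝ, 0 ≤ l ∧ l ≤ 1 ∧ Pool.Agent.H499R2.ND.HD 1 (sub (S i)) l := fun i =>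
      Pool.Agent.H499R2.ND.dens_side (d := 1) odd_one (by norm_num) (Or.inl rfl) (sub_inv (hS i))
    choose δ hδ0 hδ1 hδ using hdens
    refine ⟨δ, fun i => sub_density (hδ i), fun X hXX c M N hMN hN P P' hP => ?_⟩
    have g := hX (fun i => sub (S i)) (fun i => sub_inv (hS i)) (fun i n hn => ⟨hn.1, hn.2.2⟩) δ hδ X (by omega)
      c M N hMN hN P P' hP
    have hpos : ∀ v ∈ Region Λ c M N P P', ∀ i, 0 < value Λ c i v := by
      intro v hv i
      have := (hv.2 i).1
      have h5 : (0 : ℤ) ≤ M i := Int.natCast_nonneg _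
      linarith
    have e1 := region_eq Λ c M N P P' (fun v => ∀ i, value Λ c i v ∈ S i ∧
            ExcursionLE (value Λ c i v) (lam i * value Λ c i v))
      (fun v => ∀ i, Pool.Agent.W36.GK.dot (Λ i) v + c i ∈ sub (S i) ∧ Ex (lam i) (Pool.Agent.W36.GK.dot (Λ i) v + c i)) (by
        intro v hv
        refine forall_congr' fun i => ?_
        have hp := hpos v hv i
        have hve : value Λ c i v = Pool.Agent.W36.GK.dot (Λ i) v + c i := rfl
        rw [exc_iff hp, ← hve]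
        constructor
        · rintro ⟨k1, k2⟩
          refine ⟨⟨hp, k1, ?_⟩, k2⟩
          rw [← fin_iff hp]
          refine ⟨⌊lam i * ((value Λ c i v).toNat : ℝ)⌋, fun k => ?_⟩
          rw [Int.le_floor]
          have k3 := k2.2 k
          have k4 : T^[k] (value Λ c i v) = ((Tn^[k] (value Λ c i v).toNat : ℕ) : ℤ) := by
            rw [← T_iter, Int.toNat_of_nonneg hp.le]
          rw [k4]
          push_cast at k3 ⊢
          exact k3
        · rintro ⟨⟨_, k1, _⟩, k2⟩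
          exact ⟨k1, k2⟩)
    have e2 := region_eq Λ c M N P P' (fun v => ∀ i, Safe K (lam i) (value Λ c i v)) (fun v => Good Λ c K lam v) (by
        intro v hv
        refine forall_congr' fun i => ?_
        exact safe_iff (hpos v hv i) K (lam i))
    have e3 := region_eq Λ c M N P P' (fun _ => True) (fun _ => True) (fun _ _ => Iff.rfl)
    simp only [and_true, Finset.filter_true] at e3
    have e3' : (Region Λ c M N P P').ncard = (rg Λ c M N P P').card := e3
    rw [e1, e2, e3']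
    have hXp : 0 ≤ (X : ℝ) ^ (D + 1) := by positivity
    have g' : |((((rg Λ c M N P P').filter (fun v => ∀ i, Pool.Agent.W36.GK.dot (Λ i) v + c i ∈ sub (S i) ∧
        Ex (lam i) (Pool.Agent.W36.GK.dot (Λ i) v + c i))).card : ℕ) : ℝ) -
        (∏ i, δ i) * ((((rg Λ c M N P P').filter (fun v => Good Λ c K lam v)).card : ℕ) : ℝ)| ≤ ε / 2 * (X : ℝ) ^ (D + 1) := by
      convert g using 4
    have hhalf : ε / 2 * (X : ℝ) ^ (D + 1) ≤ ε * (X : ℝ) ^ (D + 1) :=
      mul_le_mul_of_nonneg_right (by linarith) hXp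
    refine ⟨g'.trans hhalf, fun hodd => ?_⟩
    have k1 := hX₁ hodd X (by omega) c M N P P' hP
    have hprod0 : 0 ≤ ∏ i, δ i := Finset.prod_nonneg fun i _ => hδ0 i
    have hprod1 : ∏ i, δ i ≤ 1 := Finset.prod_le_one (fun i _ => hδ0 i) (fun i _ => hδ1 i)
    have k2 := mul_le_mul_of_nonneg_left k1 hprod0
    have k3 := (abs_le.1 g').1
    have k4 : (∏ i, δ i) * (ε / 2 * (X : ℝ) ^ (D + 1)) ≤ 1 * (ε / 2 * (X : ℝ) ^ (D + 1)) :=
      mul_le_mul_of_nonneg_right hprod1 (by positivity)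
    nlinarith

end Pool.Agent.Results.MP_0a5adf_nt.LinearForms
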