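import Pool.Agent.TH926.PX.Fixed
import Pool.Agent.H499R2.NDWord

set_option autoImplicit false

/-! The number of the primes with a large excursion. -/

namespace Pool.Agent.Results.MP_0a5adf_nt.PrimeExcursions

open Filter Topology

/-- the accelerated `3x+1` map -/
def T (n : ℕ) : ℕ := if n % 2 = 0 then n / 2 else (3 * n + 1) / 2

/-- the trajectory of `n` exceeds `V` before it reaches a value `≤ y` -/
def ExceedsBefore (V y : ℝ) (n : ℕ) : Prop :=
  ∃ k, V < (T^[k] n : ℕ) ∧ ∀ j ≤ k, y < (T^[j] n : ℕ)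

/-- the number of the primes `p ≤ x` with the property `R` -/
noncomputable def primeCount (R : ℕ → Prop) (x : ℕ) : ℝ := ({p : ℕ | p.Prime ∧ p ≤ x ∧ R p}.ncard : ℝ)

/-- words `w` of length `K` over `{0,1}` with `3^(w_0+...+w_(k-1)) / 2^k < lam` for `1 ≤ k ≤ K` -/
def safeWords (K : ℕ) (lam : ℝ) : Set (Fin K → Fin 2) :=
  {w | ∀ k, 1 ≤ k → k ≤ K →
    (3 : ℝ) ^ (∑ i ∈ Finset.univ.filter (fun i : Fin K => (i : ℕ) < k), (w i : ℕ)) < lam * 2 ^ k}

theorem T_eq : T = Pool.Agent.Helper894.Collatz.T := rfl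

open scoped Classical in
theorem primeCount_eq (lam y : ℝ) (x : ℕ) :
    primeCount (fun p => ExceedsBefore (lam * p) y p) x = Pool.Agent.TH926.PX.N x lam y := by
  unfold primeCount Pool.Agent.TH926.PX.N
  have : {p : ℕ | p.Prime ∧ p ≤ x ∧ ExceedsBefore (lam * p) y p} =
      (((Finset.Icc 1 x).filter
        (fun p => p.Prime ∧ Pool.Agent.W36.SL.Exc lam y p) : Finset ℕ) : Set ℕ) := by
    ext n
    rw [Finset.coe_filter]
    simp only [Set.mem_ofPred_eq, Finset.mem_Icc]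
    constructor
    · rintro ⟨h1, h2, h3⟩
      exact ⟨⟨h1.one_lt.le, h2⟩, h1, h3⟩
    · rintro ⟨⟨_, h2⟩, h1, h3⟩
      exact ⟨h1, h2, h3⟩
  rw [this, Set.ncard_coe_finset]

open Pool.Agent.H499R2.ND Pool.Agent.W36.SL in
theorem s_eq {lam : ℝ} (hl : 1 < lam) (K : ℕ) : s K lam = ((safeWords K lam).ncard : ℝ) / 2 ^ K := by
  classical
  have h1 : rK K lam = ((safeWords K lam).ncard : ℝ) / 2 ^ K := rK_words K lam
  rw [← h1]
  have h2 := card_PP K lam
  have h3 : ∀ n, ¬ Pool.Agent.H828R3.Exc.PP lam K n ↔ AK K lam n := by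
    intro n
    unfold Pool.Agent.H828R3.Exc.PP AK
    push Not
    constructor
    · intro h k _ hk2
      exact h k hk2
    · intro h k hk2
      rcases Nat.eq_zero_or_pos k with h0 | h0
      · subst h0
        simpa [Pool.Agent.Helper894.Collatz.od] using hl
      · exact h k h0 hk2
  have h4 := Finset.card_filter_add_card_filter_not (s := Finset.range (2 ^ K))
    (fun n => Pool.Agent.H828R3.Exc.PP lam K n)
  rw [Finset.card_range] at h4
  have h5 : (((Finset.range (2 ^ K)).filter (fun n => Pool.Agent.H828R3.Exc.PP lam K n)).card : ℝ) +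
      (((Finset.range (2 ^ K)).filter (fun n => ¬ Pool.Agent.H828R3.Exc.PP lam K n)).card : ℝ) = 2 ^ K := by
    exact_mod_cast h4
  have h6 : (Finset.range (2 ^ K)).filter (fun n => ¬ Pool.Agent.H828R3.Exc.PP lam K n) =
      (Finset.range (2 ^ K)).filter (AK K lam) := Finset.filter_congr fun n _ => h3 n
  rw [h6, h2] at h5
  unfold rK
  rw [eq_div_iff (by positivity)]
  have h7 : (((Finset.range (2 ^ K)).filter (AK K lam)).card : ℝ) = s K lam * 2 ^ K := by linarith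
  rw [← h7]

/-- LARGE EXCURSIONS OF THE PRIMES. For `lam > 1` let `q lam` be the limit of the proportion of the
safe words of length `K`; `C = (∫_1^2 q) / log (27/16) > 0` is the limit of `lam * (1 - q lam)`.
1. For fixed `lam > 3/2` the proportion of the primes `p ≤ x` whose trajectory exceeds `lam * p` before
it reaches a value `≤ y` tends to `1 - q (2 lam / 3)`, uniformly for `(log x)^B ≤ y ≤ x^θ`, `θ < 1`.
2. This proportion is `(3/2 C + o(1)) / lam` as `lam → ∞`, uniformly for `lam ≤ (log x)^A`,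
`(log x)^B ≤ y ≤ x^θ` (`B` depends on `A` only).
3. It is `≤ C₁ / lam` for `1 ≤ lam ≤ x^v` and `y ≥ x^θ`, with an absolute constant `C₁` and `v > 0`
depending on `θ > 0`. -/
theorem result : ∃ (q : ℝ → ℝ) (C : ℝ),
    (∀ lam : ℝ, 1 < lam →
      Tendsto (fun K : ℕ => ((safeWords K lam).ncard : ℝ) / 2 ^ K) atTop (𝓝 (q lam))) ∧
    0 < C ∧ C = (∫ t in (1 : ℝ)..2, q t) / Real.log (27 / 16) ∧
    Tendsto (fun lam => lam * (1 - q lam)) atTop (𝓝 C) ∧
    (∃ B : ℝ, ∀ θ : ℝ, θ < 1 → ∀ lam : ℝ, 3 / 2 < lam → ∀ ε : ℝ, 0 < ε →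
      ∃ x₀ : ℕ, ∀ x : ℕ, x₀ ≤ x → ∀ y : ℝ, Real.log x ^ B ≤ y → y ≤ (x : ℝ) ^ θ →
        |primeCount (fun p => ExceedsBefore (lam * p) y p) x -
          (1 - q (2 * lam / 3)) * Nat.primeCounting x| ≤ ε * Nat.primeCounting x) ∧
    (∀ A : ℕ, ∃ B : ℝ, ∀ θ : ℝ, θ < 1 → ∀ ε : ℝ, 0 < ε →
      ∃ (L : ℝ) (x₀ : ℕ), ∀ x : ℕ, x₀ ≤ x → ∀ y : ℝ, Real.log x ^ B ≤ y → y ≤ (x : ℝ) ^ θ →
        ∀ lam : ℝ, L ≤ lam → lam ≤ Real.log x ^ A →
          |primeCount (fun p => ExceedsBefore (lam * p) y p) x -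
            3 / 2 * C * (Nat.primeCounting x / lam)| ≤ ε * (Nat.primeCounting x / lam)) ∧
    (∃ C₁ : ℝ, ∀ θ : ℝ, 0 < θ → ∃ v : ℝ, 0 < v ∧ ∃ x₀ : ℕ, ∀ x : ℕ, x₀ ≤ x →
      ∀ y : ℝ, (x : ℝ) ^ θ ≤ y → ∀ lam : ℝ, 1 ≤ lam → lam ≤ (x : ℝ) ^ v →
        primeCount (fun p => ExceedsBefore (lam * p) y p) x ≤ C₁ * (Nat.primeCounting x / lam)) := by
  obtain ⟨c, C0, hc, _, hlaw⟩ := Pool.Agent.H828R3.Exc.law (ε := 1 / 20) (by norm_num)
  refine ⟨Pool.Agent.W36.SL.q, Pool.Agent.W36.SL.C, ?_, Pool.Agent.W36.SL.C_pos, rfl,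
    Pool.Agent.W36.SL.p_tendsto, ?_, fun A => ?_, ?_⟩
  · intro lam hl
    exact (Pool.Agent.W36.SL.s_tendsto lam).congr fun K => s_eq hl K
  · obtain ⟨B, _, h⟩ := Pool.Agent.TH926.PX.fixed hc hlaw
    refine ⟨B, fun θ hθ lam hlam ε hε => ?_⟩
    obtain ⟨x₀, h1⟩ := h θ hθ lam (by linarith) ε hε
    refine ⟨x₀, fun x hx y hy1 hy2 => ?_⟩
    rw [primeCount_eq]
    exact h1 x hx y hy1 hy2
  · obtain ⟨B, _, h⟩ := Pool.Agent.TH926.PX.up_unif hc hlaw A
    refine ⟨B, fun θ hθ ε hε => ?_⟩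
    have he : 0 < min ε 1 := lt_min hε one_pos
    obtain ⟨L1, x1, h1⟩ := h (min ε 1) he (min_le_right _ _)
    obtain ⟨L2, x2, h2⟩ := Pool.Agent.TH926.PX.low_unif A θ hθ (min ε 1) he (min_le_right _ _)
    obtain ⟨x3, h3⟩ := Pool.Agent.TH926.PX.log_ge 1
    refine ⟨max (max L1 L2) 1, max (max x1 x2) x3, fun x hx y hy1 hy2 lam hl1 hl2 => ?_⟩
    have hlog := h3 x (by omega)
    have hlam : 0 < lam := lt_of_lt_of_le one_pos (le_trans (le_max_right _ _) hl1)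
    have k1 := h1 x (by omega) y hy1 lam (le_trans (le_trans (le_max_left _ _) (le_max_left _ _)) hl1) hl2
    have k2 := h2 x (by omega) y (le_trans (Real.rpow_nonneg (by linarith) _) hy1) hy2 lam
      (le_trans (le_trans (le_max_right _ _) (le_max_left _ _)) hl1) hl2
    rw [primeCount_eq]
    have e : (Nat.primeCounting x : ℝ) = Pool.Agent.TH926.PX.P x := rfl
    rw [e]
    have hQ : 0 ≤ Pool.Agent.TH926.PX.P x / lam := by
      unfold Pool.Agent.TH926.PX.P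
      positivity
    have h5 : min ε 1 * (Pool.Agent.TH926.PX.P x / lam) ≤ ε * (Pool.Agent.TH926.PX.P x / lam) :=
      mul_le_mul_of_nonneg_right (min_le_left _ _) hQ
    rw [abs_le]
    constructor <;> linarith
  · obtain ⟨C1, _, h⟩ := Pool.Agent.TH926.PX.coarse hc hlaw
    refine ⟨C1, fun θ hθ => ?_⟩
    obtain ⟨v, hv, x₀, h1⟩ := h θ hθ
    refine ⟨v, hv, x₀, fun x hx y hy lam hl1 hl2 => ?_⟩
    rw [primeCount_eq]
    exact h1 x hx y hy lam hl1 hl2

end Pool.Agent.Results.MP_0a5adf_nt.PrimeExcursions
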