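import Pool.Agent.TH465.SX.P4

set_option autoImplicit false

/-!
The law of the maximum excursions of the `3x+1` map along linear forms in two primes.

At the values `m = a p + b q + c` of a linear form in two primes from arbitrary sets of primes the ratios
`t(m) / m` are governed by the first parities of `m` only. At the integers `n - p - q`, for every large
`n`, they have a limit distribution, which depends on the parity of `n`.
-/

namespace Pool.Agent.Results.MP_0a5adf_nt.SumsWithPrimes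

open Filter Topology

/-- the accelerated `3x+1` map -/
def T (n : ℤ) : ℤ := if n % 2 = 0 then n / 2 else (3 * n + 1) / 2

/-- The trajectory of `n` is bounded above: `t(n) < ∞`. -/
def FiniteExcursion (n : ℤ) : Prop := ∃ B : ℤ, ∀ k, T^[k] n ≤ B

/-- `t(n) ≤ c` -/
def ExcursionLE (n : ℤ) (c : ℝ) : Prop := ∀ k, (T^[k] n : ℝ) ≤ c

/-- `n` is in `S` if and only if `T n` is. -/
def Invariant (S : Set ℤ) : Prop := ∀ n : ℤ, n ∈ S ↔ T n ∈ S

/-- Among the positive integers the set `S` has the natural density `δ`. -/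
def HasDensity (S : Set ℤ) (δ : ℝ) : Prop :=
  Tendsto (fun N : ℕ => ({n : ℤ | 0 < n ∧ n ≤ N ∧ n ∈ S}.ncard : ℝ) / N) atTop (𝓝 δ)

/-- the number of the odd terms among `n, T n, ..., T^(k-1) n` -/
def oddTerms (k : ℕ) (n : ℤ) : ℕ := ((Finset.range k).filter (fun j => T^[j] n % 2 = 1)).card

/-- `3 ^ (number of the odd terms among the first k) < lam * 2 ^ k` for `1 ≤ k ≤ K`; this depends on
`n` modulo `2 ^ K` only. -/
def Safe (K : ℕ) (lam : ℝ) (n : ℤ) : Prop := ∀ k, 1 ≤ k → k ≤ K → (3 : ℝ) ^ oddTerms k n < lam * 2 ^ k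

/-- words `w` of length `K` over `{0,1}` with `3^(w_0+...+w_(k-1)) < lam * 2^k` for `1 ≤ k ≤ K` -/
def safeWords (K : ℕ) (lam : ℝ) : Set (Fin K → Fin 2) :=
  {w | ∀ k, 1 ≤ k → k ≤ K →
    (3 : ℝ) ^ (∑ i ∈ Finset.univ.filter (fun i : Fin K => (i : ℕ) < k), (w i : ℕ)) < lam * 2 ^ k}

/-- The primes up to `N`. -/
def primesUpTo (N : ℕ) : Finset ℕ := (Finset.range (N + 1)).filter Nat.Prime

/-- The number of the pairs `(p, q) ∈ B × B'` for which `a p + b q + c` is positive and has the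
property `R`. -/
noncomputable def count (a b c : ℤ) (B B' : Finset ℕ) (R : ℤ → Prop) : ℝ :=
  ({z : ℕ × ℕ | z.1 ∈ B ∧ z.2 ∈ B' ∧ 0 < a * z.1 + b * z.2 + c ∧ R (a * z.1 + b * z.2 + c)}.ncard : ℝ)

/-- `q (2 lam)` for even `i`, and `q (2 lam / 3)` for odd `i` (zero if `lam ≤ 3 / 2`) -/
noncomputable def byParity (q : ℝ → ℝ) (lam : ℝ) (i : ℤ) : ℝ :=
  if i % 2 = 0 then q (2 * lam) else if 3 / 2 < lam then q (2 * lam / 3) else 0

open Pool.Agent.TH465.EX Pool.Agent.TH465.SX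
open Pool.Agent.H499R2.ND (Tn Td Bdd Bdd_inv AK Inv Dn HD rK)

theorem T_eq : T = Td 1 := rfl

theorem T_iter (k m : ℕ) : T^[k] (m : ℤ) = ((Tn^[k] m : ℕ) : ℤ) := by
  rw [T_eq]
  induction k generalizing m with
  | zero => rfl
  | succ k ih =>
    rw [Function.iterate_succ_apply, Function.iterate_succ_apply, ← ih]
    congr 1
    unfold Td Tn
    rcases Nat.mod_two_eq_zero_or_one m with h | h
    · rw [if_pos (by omega), if_pos h]; omega
    · rw [if_neg (by omega), if_neg (by omega)]; omega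

theorem fin_iff {n : ℤ} (hn : 0 < n) : FiniteExcursion n ↔ Bdd n.toNat := by
  obtain ⟨m, rfl⟩ : ∃ m : ℕ, n = m := ⟨n.toNat, by omega⟩
  rw [Int.toNat_natCast]
  unfold FiniteExcursion Bdd
  constructor
  · rintro ⟨B, hB⟩
    refine ⟨B.toNat, fun k => ?_⟩
    have := hB k
    rw [T_iter] at this
    omega
  · rintro ⟨B, hB⟩
    refine ⟨B, fun k => ?_⟩
    rw [T_iter]
    exact_mod_cast hB k

theorem exc_iff {n : ℤ} (hn : 0 < n) (lam : ℝ) : ExcursionLE n (lam * n) ↔ Ex lam n := by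
  obtain ⟨m, rfl⟩ : ∃ m : ℕ, n = m := ⟨n.toNat, by omega⟩
  unfold ExcursionLE Ex
  rw [Int.toNat_natCast]
  simp only [T_iter, Int.cast_natCast]
  exact ⟨fun h => ⟨hn, h⟩, fun h => h.2⟩

theorem odd_eq (k m : ℕ) : oddTerms k (m : ℤ) = Pool.Agent.Helper894.Collatz.od k m := by
  unfold oddTerms
  induction k with
  | zero => simp [Pool.Agent.Helper894.Collatz.od]
  | succ k ih =>
    rw [Finset.range_add_one, Finset.filter_insert, Pool.Agent.Helper894.Collatz.od_succ, ← ih,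
      Pool.Agent.H499R2.ND.Tn_eq]
    have h1 : T^[k] (m : ℤ) % 2 = ((Tn^[k] m % 2 : ℕ) : ℤ) := by
      rw [T_iter]; push_cast; rfl
    rcases Nat.mod_two_eq_zero_or_one (Tn^[k] m) with h | h
    · rw [if_neg (by rw [h1, h]; norm_num), h, add_zero]
    · rw [if_pos (by rw [h1, h]; norm_num), h, Finset.card_insert_of_notMem (by simp)]

theorem safe_iff {n : ℤ} (hn : 0 < n) (K : ℕ) (lam : ℝ) : Safe K lam n ↔ AZ K lam n := by
  rw [AZ_nat hn]
  obtain ⟨m, rfl⟩ : ∃ m : ℕ, n = m := ⟨n.toNat, by omega⟩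
  rw [Int.toNat_natCast]
  unfold Safe AK
  simp only [odd_eq]

theorem pos_iff (x : ℤ) : 0 < x ↔ 0 < Td 1 x := by
  unfold Td
  split_ifs with h <;> omega

theorem toNat_T {x : ℤ} (hx : 0 < x) : (Td 1 x).toNat = Tn x.toNat := by
  obtain ⟨m, rfl⟩ : ∃ m : ℕ, x = m := ⟨x.toNat, by omega⟩
  rw [Int.toNat_natCast]
  unfold Td Tn
  rcases Nat.mod_two_eq_zero_or_one m with h | h
  · rw [if_pos (by omega), if_pos h]; omega
  · rw [if_neg (by omega), if_neg (by omega)]; omega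

/-- the positive elements of `S` of finite excursion -/
def sub (S : Set ℤ) : Set ℤ := {n | 0 < n ∧ n ∈ S ∧ Bdd n.toNat}

theorem sub_inv {S : Set ℤ} (hS : Invariant S) : Inv 1 (sub S) := by
  intro x
  unfold sub
  simp only [Set.mem_ofPred_eq]
  constructor
  · rintro ⟨h1, h2, h3⟩
    refine ⟨(pos_iff x).1 h1, (hS x).1 h2, ?_⟩
    rw [toNat_T h1]; exact (Bdd_inv _).1 h3
  · rintro ⟨h1, h2, h3⟩
    have h1' := (pos_iff x).2 h1
    refine ⟨h1', (hS x).2 h2, ?_⟩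
    rw [toNat_T h1'] at h3; exact (Bdd_inv _).2 h3

theorem sub_density {S : Set ℤ} {δ : ℝ} (h : HD 1 (sub S) δ) :
    HasDensity {n | n ∈ S ∧ FiniteExcursion n} δ := by
  have h1 := Pool.Agent.H499R2.ND.HD_ncard (Or.inl rfl) h
  unfold HasDensity
  refine h1.congr fun N => ?_
  congr 3
  ext n
  simp only [one_mul, Set.mem_ofPred_eq, sub]
  constructor
  · rintro ⟨h1, h2, _, h3, h4⟩
    exact ⟨h1, h2, h3, (fin_iff h1).2 h4⟩
  · rintro ⟨h1, h2, h3, h4⟩
    exact ⟨h1, h2, h1, h3, (fin_iff h1).1 h4⟩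

theorem hd_of {S : Set ℤ} (hS : Invariant S) {δ : ℝ} (h : HasDensity {n | n ∈ S ∧ FiniteExcursion n} δ) :
    HD 1 (sub S) δ := by
  obtain ⟨l, _, _, hl⟩ := Pool.Agent.H499R2.ND.dens_side (d := 1) odd_one (by norm_num) (Or.inl rfl) (sub_inv hS)
  have h1 : HasDensity {n | n ∈ S ∧ FiniteExcursion n} l := sub_density hl
  have h2 : δ = l := tendsto_nhds_unique h h1
  rw [h2]; exact hl

theorem dens_of {P : ℕ → Prop} {R : Set ℤ} (hR : ∀ n : ℤ, 0 < n → (n ∈ R ↔ P n.toNat)) {l : ℝ} (h : Dn P l) :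
    HasDensity R l := by
  unfold HasDensity
  unfold Dn at h
  refine h.congr fun N => ?_
  unfold Pool.Agent.H499R2.ND.cnt
  have e : {n : ℤ | 0 < n ∧ n ≤ N ∧ n ∈ R} = (fun m : ℕ => (m : ℤ)) '' {n : ℕ | 1 ≤ n ∧ n ≤ N ∧ P n} := by
    ext n
    simp only [Set.mem_ofPred_eq, Set.mem_image]
    constructor
    · rintro ⟨g1, g2, g3⟩
      exact ⟨n.toNat, ⟨by omega, by omega, (hR n g1).1 g3⟩, by omega⟩
    · rintro ⟨m, ⟨g1, g2, g3⟩, rfl⟩
      refine ⟨by omega, by omega, (hR _ (by omega)).2 ?_⟩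
      rwa [Int.toNat_natCast]
  rw [e, Set.ncard_image_of_injective _ Nat.cast_injective]

/-- integers -/
def up (B : Finset ℕ) : Finset ℤ := B.map Nat.castEmbedding

theorem mem_up {B : Finset ℕ} {x : ℤ} : x ∈ up B ↔ ∃ p ∈ B, (p : ℤ) = x := by
  unfold up
  rw [Finset.mem_map]
  rfl

theorem up_sub {B : Finset ℕ} {N : ℕ} (h : B ⊆ primesUpTo N) : up B ⊆ PN N := by
  intro x hx
  obtain ⟨p, hp, rfl⟩ := mem_up.1 hx
  have h1 := h hp
  unfold primesUpTo at h1
  rw [Finset.mem_filter, Finset.mem_range] at h1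
  have h2 := h1.2.two_le
  rw [mem_PN, Int.toNat_natCast]
  exact ⟨⟨by omega, by omega⟩, h1.2⟩

theorem up_primes (N : ℕ) : up (primesUpTo N) = PN N := by
  apply Finset.Subset.antisymm (up_sub (Finset.Subset.refl _))
  intro x hx
  rw [mem_PN] at hx
  rw [mem_up]
  refine ⟨x.toNat, ?_, by omega⟩
  unfold primesUpTo
  rw [Finset.mem_filter, Finset.mem_range]
  exact ⟨by omega, hx.2⟩

theorem count_eq' (a b c : ℤ) (B B' : Finset ℕ) (R : ℤ → Prop) (R' : ℤ × ℤ → Prop) [DecidablePred R']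
    (h : ∀ z : ℤ × ℤ, R' z ↔ 0 < lf a b c z ∧ R (lf a b c z)) :
    count a b c B B' R = (((up B ×ˢ up B').filter R').card : ℝ) := by
  unfold count
  have e : {z : ℕ × ℕ | z.1 ∈ B ∧ z.2 ∈ B' ∧ 0 < a * z.1 + b * z.2 + c ∧ R (a * z.1 + b * z.2 + c)}.ncard =
      (((up B ×ˢ up B').filter R' : Finset (ℤ × ℤ)) : Set (ℤ × ℤ)).ncard := by
    have h1 : (((up B ×ˢ up B').filter R' : Finset (ℤ × ℤ)) : Set (ℤ × ℤ)) =
        (fun z : ℕ × ℕ => ((z.1 : ℤ), (z.2 : ℤ))) ''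
          {z : ℕ × ℕ | z.1 ∈ B ∧ z.2 ∈ B' ∧ 0 < a * z.1 + b * z.2 + c ∧ R (a * z.1 + b * z.2 + c)} := by
      ext ⟨x, y⟩
      rw [Finset.mem_coe, Finset.mem_filter, Finset.mem_product, mem_up, mem_up, h]
      simp only [Set.mem_image, Set.mem_ofPred_eq, Prod.mk.injEq, Prod.exists]
      constructor
      · rintro ⟨⟨⟨p, hp, rfl⟩, ⟨p', hp', rfl⟩⟩, h2, h3⟩
        exact ⟨p, p', ⟨hp, hp', h2, h3⟩, rfl, rfl⟩
      · rintro ⟨p, p', ⟨hp, hp', h2, h3⟩, rfl, rfl⟩
        exact ⟨⟨⟨p, hp, rfl⟩, ⟨p', hp', rfl⟩⟩, h2, h3⟩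
    rw [h1, Set.ncard_image_of_injective]
    rintro ⟨x, y⟩ ⟨x', y'⟩ hxy
    simp only [Prod.mk.injEq, Nat.cast_inj] at hxy ⊢
    exact hxy
  rw [e, Set.ncard_coe_finset]

theorem good_iff (S : Set ℤ) (lam : ℝ) (m : ℤ) :
    (m ∈ sub S ∧ Ex lam m) ↔ 0 < m ∧ (m ∈ S ∧ ExcursionLE m (lam * m)) := by
  constructor
  · rintro ⟨⟨h1, h2, _⟩, h4⟩
    exact ⟨h1, h2, (exc_iff h1 lam).2 h4⟩
  · rintro ⟨h1, h2, h3⟩
    have h4 := (exc_iff h1 lam).1 h3
    refine ⟨⟨h1, h2, ?_⟩, h4⟩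
    exact ⟨⌊lam * (m.toNat : ℝ)⌋₊, fun k => Nat.le_floor (h4.2 k)⟩

theorem sq_form {x ε L : ℝ} {N : ℕ} (hL : 0 < L) (h : |x| * L ^ 2 ≤ ε * (N : ℝ) ^ 2) : |x| ≤ ε * (N / L) ^ 2 := by
  rw [div_pow, mul_div_assoc', le_div_iff₀ (by positivity)]
  exact h

/-- THE LAW OF THE MAXIMUM EXCURSIONS ALONG LINEAR FORMS IN TWO PRIMES. Let `β > 0` be the natural density
of the positive integers of finite excursion, and let `q lam` be the limit of the proportion of the safe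
words; then `β q(lam)` is the natural density of the `n` with `t(n) ≤ lam n`. Let `lam ≥ 1` and `ε > 0`.
(1) For `a, b ≠ 0` and every large `K`, the following holds for all large `N`, uniformly in the invariant
sets `S`, the sets `B`, `B'` of primes `≤ N` and `|c| ≤ N`: the number of the `(p, q) ∈ B × B'` for which
`m = a p + b q + c > 0` is in `S` and `t(m) ≤ lam m` is `δ` times the number of those for which `m > 0` is
safe (a condition on the residues of `p` and `q` modulo `2 ^ K`), up to `ε (N / log N) ^ 2`; here `δ` is the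
density of the elements of `S` of finite excursion.
(2) If `b` is odd then for `B`, `B'` consisting of all primes `≤ N` it is `δ` times `q (2 lam)` or
`q (2 lam / 3)` (`0` if `lam ≤ 3 / 2`), for `a + b + c` even or odd, times the number of the pairs with
`m > 0`.
(3) For every large `n`, of the about `n² / (2 log² n)` pairs of primes with `p + q < n` the proportion
`δ q (2 lam)` (if `n` is even) or `δ q (2 lam / 3)` (if `n` is odd; `0` if `lam ≤ 3 / 2`) satisfies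
`n - p - q ∈ S` and `t(n - p - q) ≤ lam (n - p - q)`, up to `ε`. -/
theorem result : ∃ (β : ℝ) (q : ℝ → ℝ), 0 < β ∧ β ≤ 1 ∧ (β = 1 ↔ ∀ n : ℤ, 0 < n → FiniteExcursion n) ∧
    HasDensity {n | FiniteExcursion n} β ∧
    (∀ lam : ℝ, 1 ≤ lam → 1 - 1 / lam ≤ q lam ∧ q lam ≤ 1 ∧
      Tendsto (fun K : ℕ => ((safeWords K lam).ncard : ℝ) / 2 ^ K) atTop (𝓝 (q lam)) ∧
      HasDensity {n | ExcursionLE n (lam * n)} (β * q lam)) ∧
    ∀ lam : ℝ, 1 ≤ lam → ∀ ε : ℝ, 0 < ε →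
      (∀ a b : ℤ, a ≠ 0 → b ≠ 0 →
        (∃ K₀ : ℕ, ∀ K : ℕ, K₀ ≤ K → ∃ N₀ : ℕ, ∀ N : ℕ, N₀ ≤ N → ∀ S : Set ℤ, Invariant S →
          ∀ δ : ℝ, HasDensity {n | n ∈ S ∧ FiniteExcursion n} δ →
          ∀ B B' : Finset ℕ, B ⊆ primesUpTo N → B' ⊆ primesUpTo N → ∀ c : ℤ, |c| ≤ N →
            |count a b c B B' (fun m => m ∈ S ∧ ExcursionLE m (lam * m)) - δ * count a b c B B' (Safe K lam)| ≤
              ε * (N / Real.log N) ^ 2) ∧
        (Odd b → ∃ N₀ : ℕ, ∀ N : ℕ, N₀ ≤ N → ∀ S : Set ℤ, Invariant S →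
          ∀ δ : ℝ, HasDensity {n | n ∈ S ∧ FiniteExcursion n} δ → ∀ c : ℤ, |c| ≤ N →
            |count a b c (primesUpTo N) (primesUpTo N) (fun m => m ∈ S ∧ ExcursionLE m (lam * m)) -
              δ * byParity q lam (a + b + c) * count a b c (primesUpTo N) (primesUpTo N) (fun _ => True)| ≤
              ε * (N / Real.log N) ^ 2)) ∧
      (∃ n₀ : ℕ, ∀ n : ℕ, n₀ ≤ n → ∀ S : Set ℤ, Invariant S →
        ∀ δ : ℝ, HasDensity {n | n ∈ S ∧ FiniteExcursion n} δ →
          |count (-1) (-1) n (primesUpTo n) (primesUpTo n) (fun m => m ∈ S ∧ ExcursionLE m (lam * m)) -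
            δ * byParity q lam n * ((n : ℝ) ^ 2 / (2 * Real.log n ^ 2))| ≤ ε * (n / Real.log n) ^ 2) := by
  classical
  obtain ⟨β, h0, h1, h2, h3⟩ := Pool.Agent.H499R2.ND.Bdd_density
  have hβ : Dn Bdd β := h3
  have hex : ∀ lam : ℝ, ∃ q : ℝ, 1 ≤ lam → (Tendsto (fun K => rK K lam) atTop (𝓝 q) ∧ 1 - 1 / lam ≤ q ∧ q ≤ 1 ∧
      Dn (fun n => ∀ k, ((Tn^[k] n : ℕ) : ℝ) ≤ lam * n) (β * q)) := by
    intro lam
    by_cases hl : 1 ≤ lam
    · obtain ⟨q, hq⟩ := Pool.Agent.H499R2.ND.exc_law hβ hl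
      exact ⟨q, fun _ => hq⟩
    · exact ⟨0, fun h => absurd h hl⟩
  choose q hq using hex
  have hqt : ∀ lam, 1 ≤ lam → Tendsto (fun K => rK K lam) atTop (𝓝 (q lam)) := fun lam hl => (hq lam hl).1
  refine ⟨β, q, h0, h1, ?_, ?_, ?_, ?_⟩
  · rw [h2]
    constructor
    · intro h n hn
      exact (fin_iff hn).2 (h n.toNat (by omega))
    · intro h n hn
      have := (fin_iff (n := (n : ℤ)) (by omega)).1 (h n (by omega))
      rwa [Int.toNat_natCast] at this
  · exact dens_of (fun n hn => fin_iff hn) h3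
  · intro lam hl
    obtain ⟨k1, k2, k3, k4⟩ := hq lam hl
    refine ⟨k2, k3, k1.congr fun K => Pool.Agent.H499R2.ND.rK_words K lam, ?_⟩
    refine dens_of (P := fun n => ∀ k, ((Tn^[k] n : ℕ) : ℝ) ≤ lam * n) (fun n hn => ?_) k4
    show ExcursionLE n (lam * n) ↔ _
    rw [exc_iff hn]
    exact ⟨fun h => h.2, fun h => ⟨hn, h⟩⟩
  · intro lam hl ε hε
    have hLL : ∀ i, |LL q lam i| ≤ 1 := by
      have hb : ∀ x : ℝ, 1 ≤ x → |q x| ≤ 1 := by
        intro x hx
        obtain ⟨_, k2, k3, _⟩ := hq x hx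
        have : 1 / x ≤ 1 := by rw [div_le_one (by linarith)]; exact hx
        rw [abs_le]; constructor <;> linarith
      intro i
      unfold LL
      split_ifs with g1 g2
      · exact hb _ (by linarith)
      · exact hb _ (by linarith)
      · simp
    refine ⟨fun a b ha hb => ⟨?_, fun hob => ?_⟩, ?_⟩
    · obtain ⟨K₀, hK⟩ := part1 hβ hl ha hb hε
      refine ⟨K₀, fun K hKK => ?_⟩
      obtain ⟨N₀, hN₀⟩ := eventually_atTop.1 (hK K hKK)
      refine ⟨N₀ + 2, fun N hN S hS δ hδ B B' hB hB' c hc => ?_⟩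
      have hL : 0 < Real.log N := Real.log_pos (by exact_mod_cast (by omega : 1 < N))
      have g := hN₀ N (by omega) (sub S) (sub_inv hS) (fun n hn => ⟨hn.1, hn.2.2⟩) δ (hd_of hS hδ) (up B) (up B')
        (up_sub hB) (up_sub hB') c hc
      rw [count_eq' a b c B B' (fun m => m ∈ S ∧ ExcursionLE m (lam * m))
          (fun z => lf a b c z ∈ sub S ∧ Ex lam (lf a b c z)) (fun z => good_iff S lam _),
        count_eq' a b c B B' (Safe K lam) (fun z => 0 < lf a b c z ∧ AZ K lam (lf a b c z))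
          (fun z => and_congr_right fun hz => (safe_iff hz K lam).symm)]
      exact sq_form hL g
    · obtain ⟨N₀, hN₀⟩ := eventually_atTop.1 (part2 hβ hqt hl ha hob hε)
      refine ⟨N₀ + 2, fun N hN S hS δ hδ c hc => ?_⟩
      have hL : 0 < Real.log N := Real.log_pos (by exact_mod_cast (by omega : 1 < N))
      have g := hN₀ N (by omega) (sub S) (sub_inv hS) (fun n hn => ⟨hn.1, hn.2.2⟩) δ (hd_of hS hδ) c hc
      rw [count_eq' a b c _ _ (fun m => m ∈ S ∧ ExcursionLE m (lam * m))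
          (fun z => lf a b c z ∈ sub S ∧ Ex lam (lf a b c z)) (fun z => good_iff S lam _),
        count_eq' a b c _ _ (fun _ => True) (fun z => 0 < lf a b c z) (fun z => ⟨fun h => ⟨h, trivial⟩, fun h => h.1⟩),
        up_primes, mul_assoc]
      exact sq_form hL g
    · obtain ⟨N₀, hN₀⟩ := eventually_atTop.1 (part3 hβ hqt hl hLL hε)
      refine ⟨N₀ + 2, fun n hn S hS δ hδ => ?_⟩
      have hL : 0 < Real.log n := Real.log_pos (by exact_mod_cast (by omega : 1 < n))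
      have g := hN₀ n (by omega) (sub S) (sub_inv hS) (fun n hn => ⟨hn.1, hn.2.2⟩) δ (hd_of hS hδ)
      rw [count_eq' (-1) (-1) n _ _ (fun m => m ∈ S ∧ ExcursionLE m (lam * m))
          (fun z => lf (-1) (-1) n z ∈ sub S ∧ Ex lam (lf (-1) (-1) n z)) (fun z => good_iff S lam _), up_primes]
      apply sq_form hL
      set E : ℝ := (((PN n ×ˢ PN n).filter (fun z => lf (-1) (-1) n z ∈ sub S ∧ Ex lam (lf (-1) (-1) n z))).card : ℝ) with hE
      have e1 : (E - δ * byParity q lam n * ((n : ℝ) ^ 2 / (2 * Real.log n ^ 2))) * Real.log n ^ 2 =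
          E * Real.log n ^ 2 - δ * (LL q lam n * (n ^ 2 / 2)) := by
        have : byParity q lam n = LL q lam n := rfl
        rw [this]
        field_simp
      have e2 := congrArg abs e1
      rw [abs_mul, abs_of_nonneg (show 0 ≤ Real.log n ^ 2 by positivity)] at e2
      rw [e2]
      exact g

end Pool.Agent.Results.MP_0a5adf_nt.SumsWithPrimes
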